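import Mathlib

namespace Pool.Agent.Results.MP_c0ff68_co.Upper

variable {V : Type} [DecidableEq V]

/-- `CanForce goal free opp t`: the elements of `free` are unclaimed, the opponent has claimed
`opp`, the strategist is to move iff `t = true`, the players alternately claim one unclaimed
element until none is left, and the strategist can ensure that the opponent's final set
satisfies `goal`. -/
inductive CanForce (goal : Finset V → Prop) : Finset V → Finset V → Bool → Prop
  | done (opp : Finset V) (t : Bool) : goal opp → CanForce goal ∅ opp t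
  | me (free opp : Finset V) (v : V) : v ∈ free → CanForce goal (free.erase v) opp false →
      CanForce goal free opp true
  | them (free opp : Finset V) : free.Nonempty →
      (∀ v ∈ free, CanForce goal (free.erase v) (insert v opp) true) →
      CanForce goal free opp false

/-- The hypergraph `F` on the board `V` has gap factor at least `c`. -/
def GapAtLeast [Fintype V] (F : Finset (Finset V)) (c : ℝ) : Prop :=
  ∀ t : Bool, CanForce (fun M => ∃ A ∈ F, A ⊆ M) Finset.univ ∅ t ∧
    CanForce (fun M => ∀ A ∈ F, ((M ∩ A).card : ℝ) ≤ A.card / c) Finset.univ ∅ t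

theorem play {goal : Finset V → Prop} (A : Finset V) {free opp : Finset V} {t : Bool}
    (h : CanForce goal free opp t) (hd : Disjoint free opp) :
    ∃ M, goal M ∧ 2 * (opp ∩ A).card + (free ∩ A).card ≤ 2 * (M ∩ A).card + t.toNat := by
  induction h with
  | done opp t h => exact ⟨opp, h, by simp⟩
  | me free opp v hv _ ih =>
    obtain ⟨M, h1, h2⟩ := ih (hd.mono_left (Finset.erase_subset _ _))
    refine ⟨M, h1, ?_⟩
    rw [Finset.erase_inter] at h2
    have := Finset.pred_card_le_card_erase (s := free ∩ A) (a := v)
    simp only [Bool.toNat_true, Bool.toNat_false] at *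
    omega
  | them free opp hne _ ih =>
    have hd' : ∀ v, Disjoint (free.erase v) (insert v opp) := fun v =>
      Finset.disjoint_insert_right.2 ⟨Finset.notMem_erase _ _,
        hd.mono_left (Finset.erase_subset _ _)⟩
    rcases (free ∩ A).eq_empty_or_nonempty with h | ⟨v, hv⟩
    · obtain ⟨v, hv⟩ := hne
      obtain ⟨M, h1, h2⟩ := ih v hv (hd' v)
      refine ⟨M, h1, ?_⟩
      have := Finset.card_le_card (Finset.inter_subset_inter_right (u := A)
        (Finset.subset_insert v opp))
      simp only [Bool.toNat_true, Bool.toNat_false, h, Finset.card_empty] at *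
      omega
    · obtain ⟨h3, h4⟩ := Finset.mem_inter.1 hv
      obtain ⟨M, h1, h2⟩ := ih v h3 (hd' v)
      refine ⟨M, h1, ?_⟩
      rw [Finset.erase_inter, Finset.card_erase_of_mem hv, Finset.insert_inter_of_mem h4,
        Finset.card_insert_of_notMem fun h => Finset.disjoint_left.1 hd h3
          (Finset.mem_inter.1 h).1] at h2
      have := Finset.card_pos.2 ⟨v, hv⟩
      simp only [Bool.toNat_true, Bool.toNat_false] at *
      omega

/-- No finite hypergraph has gap factor larger than `2`. -/
theorem result (V : Type) [Fintype V] [DecidableEq V] (F : Finset (Finset V))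
    (hF : ∀ A ∈ F, A.Nonempty) (c : ℝ) (hc : 1 ≤ c) (h : GapAtLeast F c) : c ≤ 2 := by
  obtain ⟨M, ⟨A, hA, -⟩, -⟩ := play ∅ (h false).1 (by simp)
  obtain ⟨M, h1, h2⟩ := play A (h false).2 (by simp)
  have h3 := h1 A hA
  have h4 : (0 : ℝ) < A.card := by exact_mod_cast (hF A hA).card_pos
  have h5 : (A.card : ℝ) ≤ 2 * (M ∩ A).card := by
    simp at h2
    exact_mod_cast h2
  rw [le_div_iff₀ (by linarith)] at h3
  nlinarith

end Pool.Agent.Results.MP_c0ff68_co.Upper
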